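import Pool.Agent.W296.MC.Iface

set_option autoImplicit false

namespace Pool.Agent.W120.MC

open Pool.Agent.W296.MC Pool.Agent.Helper741

section per

variable {B : Type}

/-- periodic continuation of a word -/
def qq (ω : List B) (h : 0 < ω.length) (t : ℕ) : B := ω[t % ω.length]'(Nat.mod_lt _ h)

lemma qq_lt (ω : List B) (h : 0 < ω.length) {t : ℕ} (ht : t < ω.length) : qq ω h t = ω[t] := by
  unfold qq
  simp [Nat.mod_eq_of_lt ht]

lemma per_qq (ω : List B) (h : 0 < ω.length) (hn : ω.Nodup) (ha : ∀ b, b ∈ ω) :
    Per (qq ω h) ω.length where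
  per t := by unfold qq; simp
  ex t b := by
    obtain ⟨j, hj, rfl⟩ := List.mem_iff_getElem.mp (ha b)
    refine ⟨t + (j + (ω.length - t % ω.length)) % ω.length, by omega, ?_, ?_⟩
    · have := Nat.mod_lt (j + (ω.length - t % ω.length)) h
      omega
    · unfold qq
      have h1 : (t + (j + (ω.length - t % ω.length)) % ω.length) % ω.length = j := by
        rw [Nat.add_mod_mod]
        have h2 : t + (j + (ω.length - t % ω.length)) = j + ω.length * (t / ω.length + 1) := by
          have h3 := Nat.div_add_mod t ω.length
          have h4 := Nat.mod_lt t h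
          rw [Nat.mul_add, mul_one]
          omega
        rw [h2, Nat.add_mul_mod_self_left, Nat.mod_eq_of_lt hj]
      simp [h1]
  uniq t t' h1 h2 h3 := by
    unfold qq at h3
    have h4 := (hn.getElem_inj_iff).mp h3
    have h5 : ω.length ∣ t' - t := (Nat.modEq_iff_dvd' h1.le).mp h4
    have h6 := Nat.eq_zero_of_dvd_of_lt h5 (by omega)
    omega

lemma flatten_rep (ω : List B) (h : 0 < ω.length) (m : ℕ) :
    (List.replicate m ω).flatten = pre (qq ω h) (m * ω.length) := by
  induction m with
  | zero => simp [pre]
  | succ m ih =>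
    rw [List.replicate_succ', List.flatten_append, ih]
    unfold pre
    rw [Nat.succ_mul, List.range_add, List.map_append]
    congr 1
    apply List.ext_getElem
    · simp
    · intro i h1 h2
      simp only [List.flatten_cons, List.flatten_nil, List.append_nil, List.getElem_map,
        List.getElem_range]
      unfold qq
      simp only [List.flatten_cons, List.flatten_nil, List.append_nil] at h1
      simp [Nat.mod_eq_of_lt h1]

end per

section word

variable {B : Type}

lemma sort_image {L : ℕ} (e : Fin L → ℕ) (he : StrictMono e) (J : Finset (Fin L)) :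
    ((List.finRange L).filter (fun i => decide (i ∈ J))).map e = (J.image e).sort (· ≤ ·) := by
  have h1 : (((List.finRange L).filter (fun i => decide (i ∈ J))).map e).Pairwise (· < ·) := by
    rw [List.pairwise_map]
    apply List.Pairwise.filter
    exact (List.pairwise_lt_finRange L).imp (fun h => he h)
  apply List.Perm.eq_of_pairwise (le := (· ≤ ·)) _ (h1.imp le_of_lt) (Finset.pairwise_sort _ _)
  · rw [List.perm_ext_iff_of_nodup (h1.imp ne_of_lt) (Finset.sort_nodup _ _)]
    intro a
    simp
  · intro a b _ _ h1 h2
    exact le_antisymm h1 h2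

lemma word_image {L : ℕ} (q : ℕ → B) (e : Fin L → ℕ) (he : StrictMono e) (f : Fin L → B)
    (hf : ∀ i, f i = q (e i)) (J : Finset (Fin L)) :
    ((List.finRange L).filter (fun i => decide (i ∈ J))).map f =
      ((J.image e).sort (· ≤ ·)).map q := by
  rw [← sort_image e he, List.map_map]
  apply List.map_congr_left
  intro a _
  exact hf a

lemma exists_pos (q : ℕ → B) (pos : List ℕ) (hpos : pos.Pairwise (· < ·)) (Q : List B)
    (hQ : Q = pos.map q) :
    ∃ e : Fin Q.length → ℕ, StrictMono e ∧ (∀ i, Q.get i = q (e i)) ∧
      ∀ x, x ∈ pos ↔ ∃ i, e i = x := by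
  subst hQ
  refine ⟨fun i => pos[i.1]'(by have := i.2; simpa using this), ?_, ?_, ?_⟩
  · intro i j hij
    exact (List.pairwise_iff_getElem.mp hpos) i.1 j.1 _ _ hij
  · intro i
    simp
  · intro x
    rw [List.mem_iff_getElem]
    constructor
    · rintro ⟨i, hi, rfl⟩
      exact ⟨⟨i, by simpa using hi⟩, rfl⟩
    · rintro ⟨i, rfl⟩
      exact ⟨i.1, by have := i.2; simpa using this, rfl⟩

lemma sort_range (A : Finset ℕ) (T : ℕ) (hA : ∀ x ∈ A, x < T) :
    A.sort (· ≤ ·) = (List.range T).filter (fun i => decide (i ∈ A)) := by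
  have h1 : ((List.range T).filter (fun i => decide (i ∈ A))).Pairwise (· < ·) :=
    List.Pairwise.filter _ List.pairwise_lt_range
  symm
  apply List.Perm.eq_of_pairwise (le := (· ≤ ·)) _ (h1.imp le_of_lt) (Finset.pairwise_sort _ _)
  · rw [List.perm_ext_iff_of_nodup (h1.imp ne_of_lt) (Finset.sort_nodup _ _)]
    intro a
    simp only [List.mem_filter, List.mem_range, decide_eq_true_eq, Finset.mem_sort]
    exact ⟨fun h => h.2, fun h => ⟨hA a h, h⟩⟩
  · intro a b _ _ h1 h2
    exact le_antisymm h1 h2

/-- split of the sorted list at an element -/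
lemma sort_split (A : Finset ℕ) (x : ℕ) (hx : x ∈ A) :
    ∃ R : List ℕ, A.sort (· ≤ ·) = (A.filter (· < x)).sort (· ≤ ·) ++ x :: R := by
  obtain ⟨T, hT⟩ : ∃ T, ∀ y ∈ A, y < T := ⟨A.sup id + 1, fun y hy => by
    have := Finset.le_sup (f := id) hy
    simp only [id] at this
    omega⟩
  have hxT := hT x hx
  obtain ⟨r, rfl⟩ : ∃ r, T = x + (1 + r) := ⟨T - x - 1, by omega⟩
  rw [sort_range A _ hT, sort_range (A.filter (· < x)) x (by simp), List.range_add,
    List.filter_append, List.range_add, List.map_append, List.filter_append]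
  refine ⟨List.filter (fun i => decide (i ∈ A))
    (List.map (fun z => x + z) (List.map (fun z => 1 + z) (List.range r))), ?_⟩
  have h1 : List.filter (fun i => decide (i ∈ A)) (List.map (fun z => x + z) (List.range 1)) =
      [x] := by
    simp [List.range_one, hx]
  rw [h1, List.singleton_append]
  congr 1
  apply List.filter_congr
  intro a ha
  simp only [List.mem_range] at ha
  simp [ha]

end word

section greedy

variable {B : Type} {M : CoxeterMatrix B} {W : Type} [Group W] (cs : CoxeterSystem M W)
variable {q : ℕ → B} {n : ℕ}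

lemma gr_zero : gr cs q 0 = 1 := rfl

lemma gr_succ_of (t : ℕ) (h : InG cs q t) : gr cs q (t + 1) = gr cs q t * cs.simple (q t) := by
  unfold InG at h
  show (if _ then _ else _) = _
  rw [if_pos h]

lemma gr_succ_not (t : ℕ) (h : ¬ InG cs q t) : gr cs q (t + 1) = gr cs q t := by
  unfold InG at h
  show (if _ then _ else _) = _
  rw [if_neg h]

lemma len_succ_of (t : ℕ) (h : InG cs q t) :
    cs.length (gr cs q (t + 1)) = cs.length (gr cs q t) + 1 := by
  rw [gr_succ_of cs t h]
  unfold InG at h
  rcases cs.length_mul_simple (gr cs q t) (q t) with h1 | h1 <;> omega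

lemma len_mono {t t' : ℕ} (h : t ≤ t') : cs.length (gr cs q t) ≤ cs.length (gr cs q t') := by
  induction h with
  | refl => exact le_rfl
  | step _ ih =>
    rename_i m _
    by_cases h1 : InG cs q m
    · rw [Nat.succ_eq_add_one, len_succ_of cs m h1]
      omega
    · rw [Nat.succ_eq_add_one, gr_succ_not cs m h1]
      exact ih

lemma gr_eq_of_len {t t' : ℕ} (h : t ≤ t')
    (h2 : cs.length (gr cs q t') ≤ cs.length (gr cs q t)) : gr cs q t' = gr cs q t := by
  induction h with
  | refl => rfl
  | step h3 ih =>
    rename_i m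
    by_cases h1 : InG cs q m
    · rw [Nat.succ_eq_add_one, len_succ_of cs m h1] at h2
      have := len_mono cs (q := q) h3
      have h3' : t ≤ m := h3
      have := len_mono cs (q := q) h3'
      omega
    · rw [Nat.succ_eq_add_one, gr_succ_not cs m h1] at h2 ⊢
      exact ih h2

open scoped Classical in
/-- greedy positions below `T` -/
noncomputable def GS (q : ℕ → B) (T : ℕ) : Finset ℕ := (Finset.range T).filter (fun t => InG cs q t)

lemma GS_succ_of (T : ℕ) (h : InG cs q T) : (GS cs q (T + 1)).sort (· ≤ ·) =
    (GS cs q T).sort (· ≤ ·) ++ [T] := by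
  classical
  rw [sort_range _ (T + 1) (fun x hx => by simp [GS] at hx; omega),
    sort_range _ T (fun x hx => by simp [GS] at hx; omega), List.range_succ, List.filter_append]
  congr 1
  · apply List.filter_congr
    intro a ha
    simp only [List.mem_range] at ha
    simp [GS, ha]
    intro _
    omega
  · simp [GS, h]

lemma GS_succ_not (T : ℕ) (h : ¬ InG cs q T) : GS cs q (T + 1) = GS cs q T := by
  classical
  ext x
  simp only [GS, Finset.mem_filter, Finset.mem_range]
  constructor
  · rintro ⟨h1, h2⟩
    refine ⟨?_, h2⟩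
    rcases Nat.lt_succ_iff_lt_or_eq.mp h1 with h3 | h3
    · exact h3
    · subst h3
      exact absurd h2 h
  · rintro ⟨h1, h2⟩
    exact ⟨by omega, h2⟩

lemma GS_prod (T : ℕ) : cs.wordProd (((GS cs q T).sort (· ≤ ·)).map q) = gr cs q T := by
  induction T with
  | zero => simp [GS, gr]
  | succ T ih =>
    by_cases h : InG cs q T
    · rw [GS_succ_of cs T h, List.map_append, cs.wordProd_append, ih, gr_succ_of cs T h,
        List.map_singleton, cs.wordProd_singleton]
    · rw [GS_succ_not cs T h, gr_succ_not cs T h, ih]

lemma GS_card (T : ℕ) : (GS cs q T).card = cs.length (gr cs q T) := by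
  induction T with
  | zero => simp [GS, gr]
  | succ T ih =>
    by_cases h : InG cs q T
    · rw [← Finset.length_sort (· ≤ ·), GS_succ_of cs T h, List.length_append,
        Finset.length_sort, ih, len_succ_of cs T h]
      rfl
    · rw [GS_succ_not cs T h, gr_succ_not cs T h, ih]

variable {w0 : W} (h0 : ∀ w, cs.length w ≤ cs.length w0)

include h0 in
lemma exists_asc [Fintype B] [DecidableEq B] {w : W} (hw : w ≠ w0) :
    ∃ b, cs.length w < cs.length (w * cs.simple b) := by
  have h1 : w0 * w ≠ 1 := by
    intro h
    apply hw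
    have h2 := longest_sq h0
    rw [← h2] at h
    exact mul_left_cancel h
  obtain ⟨b, hb⟩ := cs.exists_rightDescent_of_ne_one h1
  refine ⟨b, ?_⟩
  have h3 : cs.length (w0 * w * cs.simple b) + 1 = cs.length (w0 * w) :=
    cs.isRightDescent_iff.mp hb
  have h4 := longest_mul h0 w
  have h5 := longest_mul h0 (w * cs.simple b)
  rw [← mul_assoc] at h5
  omega

include h0 in
lemma eq_w0 [Fintype B] [DecidableEq B] {w : W} (hw : cs.length w0 ≤ cs.length w) : w = w0 := by
  by_contra h
  obtain ⟨b, hb⟩ := exists_asc cs h0 h
  have := h0 (w * cs.simple b)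
  omega

include h0 in
lemma len_window [Fintype B] [DecidableEq B] (hq : Per q n) (t : ℕ) (h : gr cs q t ≠ w0) :
    cs.length (gr cs q t) < cs.length (gr cs q (t + n)) := by
  by_contra h1
  push Not at h1
  obtain ⟨b, hb⟩ := exists_asc cs h0 h
  obtain ⟨t', h2, h3, h4⟩ := hq.ex t b
  have h5 : gr cs q t' = gr cs q t := by
    apply gr_eq_of_len cs h2
    exact le_trans (len_mono cs h3.le) h1
  have h6 : InG cs q t' := by
    unfold InG
    rw [h5, h4]
    exact hb
  have h7 := len_succ_of cs t' h6
  have h8 := len_mono cs (q := q) (t := t' + 1) (t' := t + n) (by omega)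
  rw [h5] at h7
  omega

include h0 in
lemma len_ge [Fintype B] [DecidableEq B] (hq : Per q n) (m : ℕ) :
    m ≤ cs.length w0 → m ≤ cs.length (gr cs q (m * n)) := by
  induction m with
  | zero => intro _; omega
  | succ m ih =>
    intro h
    have h1 := ih (by omega)
    by_cases h2 : gr cs q (m * n) = w0
    · have h3 := len_mono cs (q := q) (t := m * n) (t' := (m + 1) * n)
        (Nat.mul_le_mul_right n (by omega))
      rw [h2] at h3
      omega
    · have h3 := len_window cs h0 hq (m * n) h2
      rw [Nat.add_mul, one_mul]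
      omega

include h0 in
lemma gr_w0 [Fintype B] [DecidableEq B] (hq : Per q n) {T : ℕ} (hT : cs.length w0 * n ≤ T) :
    gr cs q T = w0 := by
  apply eq_w0 cs h0
  exact le_trans (len_ge cs h0 hq _ le_rfl) (len_mono cs hT)

include h0 in
lemma not_InG [Fintype B] [DecidableEq B] (hq : Per q n) {T : ℕ} (hT : cs.length w0 * n ≤ T) :
    ¬ InG cs q T := by
  unfold InG
  rw [gr_w0 cs h0 hq hT]
  have := h0 (w0 * cs.simple (q T))
  omega

lemma len_le_card [Finite W] (w : W) : cs.length w ≤ Nat.card W := by
  obtain ⟨ω, h1, h2⟩ := cs.exists_isReduced w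
  have h3 : ω.length = cs.length w := by rw [h2]; exact h1.eq.symm
  have h4 : Function.Injective (fun i : Fin (cs.length w) => cs.wordProd (ω.take i.1)) := by
    intro i j hij
    have h5 : ∀ i : Fin (cs.length w), cs.length (cs.wordProd (ω.take i.1)) = i.1 := by
      intro i
      have := (h1.take i.1).eq
      rw [this, List.length_take]
      have := i.2
      omega
    have h6 := congrArg cs.length hij
    simp only [h5] at h6
    exact Fin.ext h6
  have := Nat.card_le_card_of_injective _ h4
  simpa using this

end greedy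

section main

variable {B : Type} {M : CoxeterMatrix B} {W : Type} [Group W] (cs : CoxeterSystem M W)
variable {q : ℕ → B} {n : ℕ}

/-- the lexicographically first reduced word of `w0` is the greedy one -/
lemma first_eq [Fintype B] [DecidableEq B] {w0 : W} (h0 : ∀ w, cs.length w ≤ cs.length w0)
    (hq : Per q n) (T : ℕ) (hT : cs.length w0 * n ≤ T) (s : List B) (hs : s = pre q T)
    (P : Finset (Fin s.length))
    (hP1 : cs.wordProd (((List.finRange s.length).filter (fun i => decide (i ∈ P))).map s.get) = w0)
    (hP2 : P.card = cs.length w0)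
    (hP3 : ∀ P' : Finset (Fin s.length),
        cs.wordProd (((List.finRange s.length).filter (fun i => decide (i ∈ P'))).map s.get) = w0 →
        P'.card = cs.length w0 → P' ≠ P →
        ∃ x ∈ P, x ∉ P' ∧ ∀ y, y < x → (y ∈ P ↔ y ∈ P')) :
    ((List.finRange s.length).filter (fun i => decide (i ∈ P))).map s.get =
      ((GS cs q T).sort (· ≤ ·)).map q := by
  classical
  obtain ⟨e, he, hf, hr⟩ := exists_pos q (List.range T) List.pairwise_lt_range s hs
  have hG : (Finset.univ.filter (fun i => InG cs q (e i))).image e = GS cs q T := by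
    ext x
    simp only [Finset.mem_image, Finset.mem_filter, Finset.mem_univ, true_and, GS,
      Finset.mem_range]
    constructor
    · rintro ⟨i, h1, rfl⟩
      exact ⟨List.mem_range.mp ((hr _).mpr ⟨i, rfl⟩), h1⟩
    · rintro ⟨h1, h2⟩
      obtain ⟨i, rfl⟩ := (hr x).mp (List.mem_range.mpr h1)
      exact ⟨i, h2, rfl⟩
  have hcard : ∀ J : Finset (Fin s.length), (J.image e).card = J.card :=
    fun J => Finset.card_image_of_injective J he.injective
  by_cases hne : Finset.univ.filter (fun i => InG cs q (e i)) = P
  · rw [word_image q e he s.get hf, ← hne, hG]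
  exfalso
  obtain ⟨x, hx, hx', hy⟩ := hP3 _ (by
    rw [word_image q e he s.get hf, hG, GS_prod, gr_w0 cs h0 hq hT]) (by
    rw [← hcard, hG, GS_card, gr_w0 cs h0 hq hT]) hne
  have hxn : ¬ InG cs q (e x) := by simpa using hx'
  rw [word_image q e he s.get hf] at hP1
  obtain ⟨R, hR⟩ := sort_split (P.image e) (e x) (Finset.mem_image_of_mem e hx)
  have h1 : (P.image e).filter (· < e x) = GS cs q (e x) := by
    ext z
    simp only [Finset.mem_filter, Finset.mem_image, GS, Finset.mem_range]
    constructor
    · rintro ⟨⟨i, h1, rfl⟩, h2⟩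
      refine ⟨h2, ?_⟩
      have := (hy i (he.lt_iff_lt.mp h2)).mp h1
      simpa using this
    · rintro ⟨h2, h3⟩
      have h4 : z < T := lt_trans h2 (List.mem_range.mp ((hr _).mpr ⟨x, rfl⟩))
      obtain ⟨i, rfl⟩ := (hr z).mp (List.mem_range.mpr h4)
      refine ⟨⟨i, ?_, rfl⟩, h2⟩
      apply (hy i (he.lt_iff_lt.mp h2)).mpr
      simpa using h3
  rw [h1] at hR
  have h2 : cs.length w0 = (GS cs q (e x)).card + 1 + R.length := by
    rw [← hP2, ← hcard P, ← Finset.length_sort (· ≤ ·), hR, List.length_append,
      Finset.length_sort, List.length_cons]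
    omega
  rw [hR, List.map_append, List.map_cons, cs.wordProd_append, GS_prod, cs.wordProd_cons,
    ← mul_assoc] at hP1
  have h3 := cs.length_mul_le (gr cs q (e x) * cs.simple (q (e x))) (cs.wordProd (R.map q))
  have h4 := cs.length_wordProd_le (R.map q)
  rw [hP1] at h3
  rw [List.length_map] at h4
  rw [GS_card] at h2
  apply hxn
  unfold InG
  omega

theorem frozen_of_core (h : Core) :
  ∀ (B : Type) (W : Type) [Group W] [Finite W] (M : CoxeterMatrix B) (cs : CoxeterSystem M W)
    (ω : List B), ω.Nodup → (∀ b : B, b ∈ ω) →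
    ∀ w0 : W, (∀ w : W, cs.length w ≤ cs.length w0) →
    ∀ (k : ℕ), 1 ≤ k →
    ∀ (s : List B), s = (List.replicate (Nat.card W) ω).flatten →
    ∀ (P : Finset (Fin s.length)),
      cs.wordProd (((List.finRange s.length).filter (fun i => decide (i ∈ P))).map s.get) = w0 →
      P.card = cs.length w0 →
      (∀ P' : Finset (Fin s.length),
        cs.wordProd (((List.finRange s.length).filter (fun i => decide (i ∈ P'))).map s.get) = w0 →
        P'.card = cs.length w0 → P' ≠ P →
        ∃ x ∈ P, x ∉ P' ∧ ∀ y, y < x → (y ∈ P ↔ y ∈ P')) →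
    ∀ (Q : List B),
      Q = (List.replicate k ω).flatten
            ++ ((List.finRange s.length).filter (fun i => decide (i ∈ P))).map s.get →
    ∀ I : Finset (Fin Q.length),
      (¬ ∃ J : Finset (Fin Q.length), Disjoint I J ∧
          cs.wordProd (((List.finRange Q.length).filter (fun i => decide (i ∈ J))).map Q.get) = w0 ∧
          J.card = cs.length w0) →
      (∀ x ∈ I, ∃ J : Finset (Fin Q.length), Disjoint (I.erase x) J ∧
          cs.wordProd (((List.finRange Q.length).filter (fun i => decide (i ∈ J))).map Q.get) = w0 ∧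
          J.card = cs.length w0) →
      I.card = k + 1 := by
  intro B W _ _ M cs ω hnd hall w0 h0 k _ s hs P hP1 hP2 hP3 Q hQ I hI1 hI2
  classical
  let _ : Fintype B := ⟨ω.toFinset, fun b => List.mem_toFinset.mpr (hall b)⟩
  rcases Nat.eq_zero_or_pos ω.length with hω | hω
  · exfalso
    apply hI1
    have hB : IsEmpty B := ⟨fun b => by
      have := hall b
      rw [List.length_eq_zero_iff.mp hω] at this
      exact absurd this List.not_mem_nil⟩
    have hw : w0 = 1 := by
      obtain ⟨ω', _, h2⟩ := cs.exists_isReduced w0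
      rw [h2]
      cases ω' with
      | nil => exact cs.wordProd_nil
      | cons b _ => exact hB.elim b
    refine ⟨∅, Finset.disjoint_empty_right _, ?_, ?_⟩
    · simp [hw]
    · simp [hw]
  set n := ω.length with hn
  set q := qq ω hω with hqd
  have hq : Per q n := per_qq ω hω hnd hall
  set T := Nat.card W * n with hTd
  have hT : cs.length w0 * n ≤ T := Nat.mul_le_mul_right n (len_le_card cs w0)
  have hs' : s = pre q T := by rw [hs, flatten_rep ω hω]
  have hw := first_eq cs h0 hq T hT s hs' P hP1 hP2 hP3
  rw [hw, flatten_rep ω hω] at hQ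
  have hGl : ∀ t, t ∈ GS cs q T ↔ InG cs q t := by
    intro t
    simp only [GS, Finset.mem_filter, Finset.mem_range]
    constructor
    · exact fun h => h.2
    · intro h
      refine ⟨?_, h⟩
      by_contra h1
      exact not_InG cs h0 hq (le_trans hT (not_lt.mp h1)) h
  have hperk : ∀ t, q (k * n + t) = q t := by
    intro t
    have : ∀ m, q (m * n + t) = q t := by
      intro m
      induction m with
      | zero => simp
      | succ m ih =>
        rw [← ih, ← hq.per (m * n + t)]
        congr 1
        ring
    exact this k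
  obtain ⟨e, he, hf, hr⟩ := exists_pos q
    (List.range (k * n) ++ ((GS cs q T).sort (· ≤ ·)).map (fun t => k * n + t)) (by
      rw [List.pairwise_append]
      refine ⟨List.pairwise_lt_range, ?_, ?_⟩
      · rw [List.pairwise_map]
        have h1 : ((GS cs q T).sort (· ≤ ·)).Pairwise (· < ·) := by
          rw [sort_range (GS cs q T) T (fun x hx => by simp [GS] at hx; omega)]
          exact List.Pairwise.filter _ List.pairwise_lt_range
        exact h1.imp (fun h => by omega)
      · intro a ha b hb
        rw [List.mem_range] at ha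
        rw [List.mem_map] at hb
        obtain ⟨c, _, rfl⟩ := hb
        omega) Q (by
      rw [hQ, List.map_append, List.map_map]
      unfold pre
      congr 1
      apply List.map_congr_left
      intro a _
      exact (hperk a).symm)
  have hr' : ∀ x, InQ cs q n k x ↔ ∃ i, e i = x := by
    intro x
    rw [← hr]
    unfold InQ
    rw [List.mem_append, List.mem_range, List.mem_map]
    apply or_congr Iff.rfl
    constructor
    · rintro ⟨t, h1, h2⟩
      exact ⟨t, by rw [Finset.mem_sort, hGl]; exact h2, h1.symm⟩
    · rintro ⟨t, h1, h2⟩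
      exact ⟨t, h2.symm, by rw [Finset.mem_sort, hGl] at h1; exact h1⟩
  have hinj := he.injective
  have hface : ∀ J0 : Finset (Fin Q.length), Face cs q n k w0 (J0.image e) ↔
      ∃ J : Finset (Fin Q.length), Disjoint J0 J ∧
        cs.wordProd (((List.finRange Q.length).filter (fun i => decide (i ∈ J))).map Q.get) = w0 ∧
        J.card = cs.length w0 := by
    intro J0
    constructor
    · rintro ⟨J', h1, h2, h3, h4⟩
      have h5 : (Finset.univ.filter (fun i => e i ∈ J')).image e = J' := by
        ext x
        simp only [Finset.mem_image, Finset.mem_filter, Finset.mem_univ, true_and]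
        constructor
        · rintro ⟨i, h, rfl⟩
          exact h
        · intro h
          obtain ⟨i, rfl⟩ := (hr' x).mp (h1 x h)
          exact ⟨i, h, rfl⟩
      refine ⟨Finset.univ.filter (fun i => e i ∈ J'), ?_, ?_, ?_⟩
      · rw [Finset.disjoint_left] at h2 ⊢
        intro a ha ha'
        simp only [Finset.mem_filter, Finset.mem_univ, true_and] at ha'
        exact h2 (Finset.mem_image_of_mem e ha) ha'
      · rw [word_image q e he Q.get hf, h5, h3]
      · rw [← Finset.card_image_of_injective _ hinj, h5, h4]
    · rintro ⟨J, h1, h2, h3⟩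
      refine ⟨J.image e, ?_, ?_, ?_, ?_⟩
      · intro x hx
        rw [Finset.mem_image] at hx
        obtain ⟨i, _, rfl⟩ := hx
        exact (hr' _).mpr ⟨i, rfl⟩
      · rw [Finset.disjoint_image hinj]
        exact h1
      · rw [← word_image q e he Q.get hf, h2]
      · rw [Finset.card_image_of_injective _ hinj, h3]
  rw [← Finset.card_image_of_injective I hinj]
  apply h B M W cs q n hq w0 h0 k
  · intro x hx
    rw [Finset.mem_image] at hx
    obtain ⟨i, _, rfl⟩ := hx
    exact (hr' _).mpr ⟨i, rfl⟩
  · rw [hface]
    exact hI1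
  · intro x hx
    rw [Finset.mem_image] at hx
    obtain ⟨i, hi, rfl⟩ := hx
    rw [← Finset.image_erase hinj, hface]
    exact hI2 i hi

end main

end Pool.Agent.W120.MC
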