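import Pool.Agent.W296.MC.Iface

set_option autoImplicit false

namespace Pool.Agent.W120.MC

open Pool.Agent.W296.MC Pool.Agent.Helper741

variable {B : Type} [Fintype B] [DecidableEq B] (M : CoxeterMatrix B)

lemma Me_mk (a b : B) : Me M s(a, b) = M a b := rfl

lemma mem_RS (x : Sym2 B → ℤ) : x ∈ RS M ↔ InR M x ∧ ∀ a, x s(a, a) = 0 := by
  unfold RS InR
  rw [Fintype.mem_piFinset]
  constructor
  · intro h
    refine ⟨?_, ?_⟩
    · intro a b hab
      have := h s(a, b)
      rw [if_neg (by simpa using hab), Finset.mem_Icc, Me_mk] at this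
      omega
    · intro a
      have := h s(a, a)
      rw [if_pos (by simp)] at this
      simpa using this
  · rintro ⟨h1, h2⟩ e
    induction e using Sym2.ind with
    | _ a b =>
      by_cases hab : a = b
      · subst hab
        rw [if_pos (by simp)]
        simpa using h2 a
      · rw [if_neg (by simpa using hab), Finset.mem_Icc, Me_mk]
        have := h1 a b hab
        omega

/-- the factor of the weight at a coordinate -/
noncomputable def fc (x : Sym2 B → ℤ) (e : Sym2 B) : ℝ :=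
  if e.IsDiag then 1 else Real.sin (Real.pi * (x e + 1) / (Me M e : ℝ))

lemma fc_pos (_hM : ∀ a b, M a b ≠ 0) (x : Sym2 B → ℤ) (hx : x ∈ RS M) (e : Sym2 B) :
    0 < fc M x e := by
  unfold fc
  split_ifs with h
  · exact one_pos
  · have h1 := (Fintype.mem_piFinset.mp hx) e
    rw [if_neg h, Finset.mem_Icc] at h1
    obtain ⟨h2, h3⟩ := h1
    have h4 : (0 : ℝ) ≤ (x e : ℝ) := by exact_mod_cast h2
    have h5 : (x e : ℝ) + 2 ≤ (Me M e : ℝ) := by
      have : x e + 2 ≤ (Me M e : ℤ) := by omega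
      exact_mod_cast this
    have h6 : (0 : ℝ) < (Me M e : ℝ) := by linarith
    apply Real.sin_pos_of_pos_of_lt_pi
    · have := Real.pi_pos
      positivity
    · rw [div_lt_iff₀ h6]
      have := Real.pi_pos
      nlinarith

lemma dw_pos (hM : ∀ a b, M a b ≠ 0) (x : Sym2 B → ℤ) (hx : x ∈ RS M) : 0 < dw M x :=
  Finset.prod_pos (fun e _ => fc_pos M hM x hx e)

/-- the rest of the product -/
noncomputable def rs (e0 : Sym2 B) (x : Sym2 B → ℤ) : ℝ := ∏ e ∈ Finset.univ.erase e0, fc M x e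

lemma dw_eq (x : Sym2 B → ℤ) (e0 : Sym2 B) : dw M x = fc M x e0 * rs M e0 x :=
  (Finset.mul_prod_erase Finset.univ (fc M x) (Finset.mem_univ e0)).symm

lemma rs_stp (a b : B) (ε : ℤ) (x : Sym2 B → ℤ) : rs M s(a, b) (stp a b ε x) = rs M s(a, b) x := by
  unfold rs
  apply Finset.prod_congr rfl
  intro e he
  unfold fc stp
  rw [Function.update_of_ne (Finset.ne_of_mem_erase he)]

lemma stp_same (a b : B) (ε : ℤ) (x : Sym2 B → ℤ) : stp a b ε x s(a, b) = x s(a, b) + ε := by
  unfold stp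
  rw [Function.update_self]

lemma stp_stp (a b : B) (ε : ℤ) (x : Sym2 B → ℤ) : stp a b (-ε) (stp a b ε x) = x := by
  ext e
  by_cases h : e = s(a, b)
  · subst h
    rw [stp_same, stp_same]
    ring
  · unfold stp
    rw [Function.update_of_ne h, Function.update_of_ne h]

lemma stp_stp' (a b : B) (ε : ℤ) (x : Sym2 B → ℤ) : stp a b ε (stp a b (-ε) x) = x := by
  have := stp_stp a b (-ε) x
  rwa [neg_neg] at this

lemma stp_mem (a b : B) (hab : a ≠ b) (ε : ℤ) (x : Sym2 B → ℤ) (hx : x ∈ RS M) :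
    stp a b ε x ∈ RS M ↔ 0 ≤ x s(a, b) + ε ∧ x s(a, b) + ε + 2 ≤ (M a b : ℤ) := by
  unfold RS at hx ⊢
  rw [Fintype.mem_piFinset] at hx ⊢
  constructor
  · intro h
    have := h s(a, b)
    rw [if_neg (by simpa using hab), Finset.mem_Icc, Me_mk, stp_same] at this
    omega
  · rintro ⟨h1, h2⟩ e
    by_cases h : e = s(a, b)
    · subst h
      rw [if_neg (by simpa using hab), Finset.mem_Icc, Me_mk, stp_same]
      omega
    · unfold stp
      rw [Function.update_of_ne h]
      exact hx e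

lemma fc_stp (a b : B) (hab : a ≠ b) (ε : ℤ) (x : Sym2 B → ℤ) :
    fc M (stp a b ε x) s(a, b) = Real.sin (Real.pi * (x s(a, b) + ε + 1) / (M a b : ℝ)) := by
  unfold fc
  rw [if_neg (by simpa using hab), stp_same, Me_mk]
  push_cast
  rfl

lemma dw_out (hM : ∀ a b, M a b ≠ 0) (a b : B) (hab : a ≠ b) (ε : ℤ) (hε : ε = 1 ∨ ε = -1)
    (x : Sym2 B → ℤ) (hx : x ∈ RS M) (h : stp a b ε x ∉ RS M) : dw M (stp a b ε x) = 0 := by
  rw [stp_mem M a b hab ε x hx] at h
  have h1 := ((mem_RS M x).mp hx).1 a b hab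
  rw [dw_eq M _ s(a, b), fc_stp M a b hab]
  have hm : (M a b : ℝ) ≠ 0 := by exact_mod_cast hM a b
  rcases hε with rfl | rfl
  · have h2 : x s(a, b) = (M a b : ℤ) - 2 := by omega
    rw [h2]
    push_cast
    have h3 : Real.pi * ((M a b : ℝ) - 2 + 1 + 1) / (M a b : ℝ) = Real.pi := by
      field_simp
      ring
    rw [h3, Real.sin_pi, zero_mul]
  · have h2 : x s(a, b) = 0 := by omega
    rw [h2]
    push_cast
    simp

lemma sum_stp (hM : ∀ a b, M a b ≠ 0) (a b : B) (hab : a ≠ b) (ε : ℤ) (hε : ε = 1 ∨ ε = -1)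
    (h : (Sym2 B → ℤ) → ℝ) (hh : ∀ x, x ∉ RS M → h x = 0) :
    ∑ x ∈ RS M, dw M x * h (stp a b ε x) = ∑ x ∈ RS M, dw M (stp a b (-ε) x) * h x := by
  have hε' : -ε = 1 ∨ -ε = -1 := by omega
  rw [← Finset.sum_filter_of_ne (p := fun x => stp a b ε x ∈ RS M) (by
    intro x _ h1
    by_contra h2
    exact h1 (by rw [hh _ h2, mul_zero])),
    ← Finset.sum_filter_of_ne (s := RS M) (p := fun x => stp a b (-ε) x ∈ RS M) (by
    intro x hx h1
    by_contra h2
    exact h1 (by rw [dw_out M hM a b hab (-ε) hε' x hx h2, zero_mul]))]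
  apply Finset.sum_nbij' (fun x => stp a b ε x) (fun x => stp a b (-ε) x)
  · intro x hx
    rw [Finset.mem_filter] at hx ⊢
    exact ⟨hx.2, by rw [stp_stp]; exact hx.1⟩
  · intro x hx
    rw [Finset.mem_filter] at hx ⊢
    exact ⟨hx.2, by rw [stp_stp']; exact hx.1⟩
  · intro x _
    exact stp_stp a b ε x
  · intro x _
    exact stp_stp' a b ε x
  · intro x _
    simp only [stp_stp]

theorem weight : Weight := by
  intro B _ _ M hM
  refine ⟨mem_RS M, dw_pos M hM, ?_⟩
  intro a b hab h hh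
  simp only [mul_add, Finset.sum_add_distrib]
  rw [sum_stp M hM a b hab 1 (Or.inl rfl) h hh, sum_stp M hM a b hab (-1) (Or.inr rfl) h hh,
    Finset.mul_sum, ← Finset.sum_add_distrib]
  apply Finset.sum_congr rfl
  intro x hx
  rw [dw_eq M _ s(a, b), dw_eq M (stp a b (- -1) x) s(a, b), dw_eq M x s(a, b), rs_stp, rs_stp,
    fc_stp M a b hab, fc_stp M a b hab]
  have h1 : fc M x s(a, b) = Real.sin (Real.pi * (x s(a, b) + 1) / (M a b : ℝ)) := by
    unfold fc
    rw [if_neg (by simpa using hab), Me_mk]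
  rw [h1]
  unfold cc
  push_cast
  have h2 : Real.pi * ((x s(a, b) : ℝ) + -1 + 1) / (M a b : ℝ) =
      Real.pi * (x s(a, b) + 1) / (M a b : ℝ) - Real.pi / (M a b : ℝ) := by ring
  have h3 : Real.pi * ((x s(a, b) : ℝ) + 1 + 1) / (M a b : ℝ) =
      Real.pi * (x s(a, b) + 1) / (M a b : ℝ) + Real.pi / (M a b : ℝ) := by ring
  rw [h2, h3, Real.sin_sub, Real.sin_add]
  ring

end Pool.Agent.W120.MC
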